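import Pool.Agent.Work.MP_03df5c_h91.MZV
import Pool.Agent.Work.MP_03df5c_h91.Full

/-!
# MP_03df5c_nt: Q1 in all depths implies that algebraic elements of the algebra of MZVs are rational

Let `z p` be any family of `p`-adic numbers indexed by the admissible indices, for instance the
`p`-adic multiple zeta values. If for all but finitely many primes `p` every polynomial relation
over `ℚ` between real multiple zeta values holds for the numbers `z p`, then every algebraic
number in the `ℚ`-algebra generated by the real multiple zeta values is rational.
-/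

namespace Pool.Agent.Results.MP_03df5c_nt.AllDepths

open MvPolynomial Pool.Agent.Work.MP_03df5c_h91

theorem result (z : (p : ℕ) → [Fact p.Prime] → MZVIndex → ℚ_[p])
    (h : {p : ℕ | p.Prime ∧ ¬ ∃ _ : Fact p.Prime, ∀ f : MvPolynomial MZVIndex ℚ,
      aeval mzv f = 0 → aeval (z p) f = 0}.Finite)
    (F : MvPolynomial MZVIndex ℚ) (hF : IsAlgebraic ℚ (aeval mzv F)) :
    ∃ q : ℚ, aeval mzv F = (q : ℝ) :=
  algebraic_rational mzv z h F hF

end Pool.Agent.Results.MP_03df5c_nt.AllDepths
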