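import Pool.Agent.Work.MP_03df5c_h91.Indep

/-!
# MP_03df5c_nt: Q1 for the two indices `2` and `k`

If the polynomial relations between `ζ(2)` and `ζ(k)` hold for `ζ_p(2)` and `ζ_p(k)` for infinitely
many primes `p` with `ζ_p(k) ≠ 0`, for example for infinitely many primes `p` that do not divide the
numerator of `B_{p-k}`, then `ζ(2) = π²/6` and `ζ(k)` are algebraically independent. All
definitions are in `Pool/Agent/Work/MP_03df5c_h91/Defs.lean`.
-/

namespace Pool.Agent.Results.MP_03df5c_nt.PairWithTwo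

open Pool.Agent.Work.MP_03df5c_h91

theorem result (k : ℕ) (hk : 2 ≤ k) :
    ({p : ℕ | ∃ _ : Fact p.Prime, Transfers 2 ![2, k] p ∧ zetaP p k ≠ 0}.Infinite ↔
      AlgebraicIndependent ℚ ![zetaR 2, zetaR k] ∧
        {p : ℕ | ∃ _ : Fact p.Prime, zetaP p k ≠ 0}.Infinite) ∧
    ∀ (p : ℕ) (_ : Fact p.Prime), k + 2 ≤ p →
      ¬ (p : ℤ) ∣ (bernoulli (p - k)).num → zetaP p k ≠ 0 := by
  refine ⟨⟨fun h => ⟨pair_independent hk h, h.mono ?_⟩, fun h => h.2.mono ?_⟩,
    fun _ _ hkp h => zetaP_ne_zero hk hkp h⟩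
  · rintro p ⟨hp, -, hne⟩
    exact ⟨hp, hne⟩
  · rintro p ⟨hp, hne⟩
    refine ⟨hp, transfers_of_independent ?_ p, hne⟩
    have e : (fun i => zetaR ((![2, k] : Fin 2 → ℕ) i)) = ![zetaR 2, zetaR k] := by
      funext i
      fin_cases i <;> rfl
    rw [e]
    exact h.1

end Pool.Agent.Results.MP_03df5c_nt.PairWithTwo
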