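import Pool.Agent.Work.MP_03df5c_h91.Indep

/-!
# MP_03df5c_nt: Q1 in depth one forces, and for one index is, transcendence

If all polynomial relations between the real zeta values `ζ(k_1), …, ζ(k_m)` hold for the `p`-adic
zeta values `ζ_p(k_1), …, ζ_p(k_m)` for infinitely many primes `p`, then the only algebraic numbers
in `ℚ[ζ(k_1), …, ζ(k_m)]` are the rational ones, more precisely the constant terms. For one index
Q1 is equivalent to the transcendence of `ζ(k)`. All definitions are in
`Pool/Agent/Work/MP_03df5c_h91/Defs.lean`.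
-/

namespace Pool.Agent.Results.MP_03df5c_nt.Transcendence

open MvPolynomial Pool.Agent.Work.MP_03df5c_h91

theorem result (m : ℕ) (k : Fin m → ℕ) (hk : ∀ i, 2 ≤ k i) :
    ({p : ℕ | ∃ _ : Fact p.Prime, Transfers m k p}.Infinite →
      (∀ i, Transcendental ℚ (zetaR (k i))) ∧
      ∀ F : MvPolynomial (Fin m) ℚ, IsAlgebraic ℚ (aeval (fun i => zetaR (k i)) F) →
        aeval (fun i => zetaR (k i)) F = ((constantCoeff F : ℚ) : ℝ)) ∧
    (m = 1 → ((∀ (p : ℕ) (_ : Fact p.Prime), Transfers m k p) ↔
      ∀ i, Transcendental ℚ (zetaR (k i)))) := by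
  refine ⟨fun hinf => ⟨transcendental_of_infinite hk hinf,
    fun F hF => aeval_eq_constantCoeff hk hinf F hF⟩, ?_⟩
  rintro rfl
  have hk0 : k = fun _ => k 0 := funext fun i => by rw [Subsingleton.elim i 0]
  have h := transfers_one_iff (hk 0)
  rw [← hk0] at h
  rw [h]
  refine ⟨fun h i => by rw [Subsingleton.elim i 0]; exact h, fun h => h 0⟩

end Pool.Agent.Results.MP_03df5c_nt.Transcendence
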