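import Pool.Agent.Work.MP_03df5c_all.Fin
import Pool.Agent.Work.MP_03df5c_all.Assoc
import Pool.Agent.Work.MP_03df5c_all_helper1.Est
import Pool.Agent.Work.MP_03df5c_all_helper38.MZ
import Pool.Agent.Work.MP_03df5c_all_helper38.TR

/-!
# MP_03df5c_nt: Q1 for one admissible index of any depth is the transcendence of `ζ(s)`

Furusho's `p`-adic multiple zeta values `ζ_p(s)` of all depths are the coefficients of the
`p`-adic KZ associator, which is defined through the Frobenius of the `p`-adic KZ equation
(`Pool/Agent/Work/MP_03df5c_all/{Defs,Zeta}.lean`; the first statement says that the definition is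
sound).

If the polynomial relations over `ℚ` between real multiple zeta values `ζ(s_1), …, ζ(s_m)` hold for
the `p`-adic multiple zeta values `ζ_p(s_1), …, ζ_p(s_m)` for infinitely many primes `p`, then no
relation between `ζ(s_1), …, ζ(s_m)` with algebraic coefficients has a constant term. For one
index `s` the relations transfer for all primes `p` if and only if `ζ(s)` is transcendental.
-/

namespace Pool.Agent.Results.MP_03df5c_nt.TranscendenceAllDepths

open MvPolynomial Pool.Agent.Work.MP_03df5c_h91 Pool.Agent.Work.MP_03df5c_all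

theorem result :
    (∀ (p : ℕ) [Fact p.Prime], ∃! Ψ : List Bool → ℚ_[p], IsAssociator p Ψ) ∧
    (∀ (m : ℕ) (s : Fin m → MZVIndex),
      {p : ℕ | ∃ _ : Fact p.Prime, Pool.Agent.Work.MP_03df5c_all.Transfers s p}.Infinite →
      ∀ F : MvPolynomial (Fin m) ℂ, (∀ d, IsAlgebraic ℚ (F.coeff d)) →
        eval (fun i => (mzv (s i) : ℂ)) F = 0 → F.coeff 0 = 0) ∧
    (∀ s : MZVIndex,
      (∀ (p : ℕ) (_ : Fact p.Prime), Pool.Agent.Work.MP_03df5c_all.Transfers ![s] p) ↔
        Transcendental ℚ (mzv s)) := by
  have hS : Stmt_SMALL := small_of_est (stmt_EST stmt_BLET)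
  exact ⟨fun p _ => stmt_UNA p, fun m s h F hF h0 => constant_term stmt_UNA hS stmt_TR m s h F hF h0,
    fun s => single_iff stmt_UNA hS stmt_TR stmt_MZ s⟩

end Pool.Agent.Results.MP_03df5c_nt.TranscendenceAllDepths
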